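import Mathlib

/-!
# Finite linear groups and few values of linear forms
-/

set_option linter.unusedSectionVars false

namespace Pool.Agent.TH119.DS

open Finset Module Pointwise

/-- Thresholds. -/
def thr (M : ℕ → ℕ) : ℕ → ℕ
  | 0 => 1
  | i + 1 => 4 * (thr M i) ^ 2 * (M (2 * (thr M i) ^ 2) + 1)

theorem thr_pos (M : ℕ → ℕ) (i : ℕ) : 0 < thr M i := by
  induction i with
  | zero => exact Nat.one_pos
  | succ i ih =>
    rw [thr]
    positivity

theorem thr_succ_ge (M : ℕ → ℕ) (i : ℕ) : 4 * (thr M i) ^ 2 ≤ thr M (i + 1) := by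
  rw [thr]
  exact Nat.le_mul_of_pos_right _ (Nat.succ_pos _)

theorem thr_le_succ (M : ℕ → ℕ) (i : ℕ) : thr M i ≤ thr M (i + 1) := by
  refine le_trans ?_ (thr_succ_ge M i)
  have h := thr_pos M i
  nlinarith

theorem thr_mono (M : ℕ → ℕ) : Monotone (thr M) := monotone_nat_of_le_succ (thr_le_succ M)

variable {k E G : Type*} [Field k] [AddCommGroup E] [Module k E] [FiniteDimensional k E] [Group G]
  [Fintype G] [DistribMulAction G E] [SMulCommClass G k E]

open Classical in
/-- The number of `g` such that `g e ∈ L`. -/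
noncomputable def mu (G : Type*) [Group G] [Fintype G] [DistribMulAction G E] (e : E)
    (L : Submodule k E) : ℕ := (Finset.univ.filter fun g : G => g • e ∈ L).card

theorem mem_smul_iff {h : G} {L : Submodule k E} {x : E} : x ∈ h • L ↔ h⁻¹ • x ∈ L := by
  rw [Submodule.mem_smul_pointwise_iff_exists]
  constructor
  · rintro ⟨y, hy, rfl⟩
    rwa [inv_smul_smul]
  · intro hx
    exact ⟨_, hx, smul_inv_smul _ _⟩

theorem mu_smul (e : E) (L : Submodule k E) (h : G) : mu G e (h • L) = mu G e L := by
  classical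
  unfold mu
  refine Finset.card_bij (fun g _ => h⁻¹ * g) ?_ ?_ ?_
  · intro g hg
    simp only [Finset.mem_filter, Finset.mem_univ, true_and] at hg ⊢
    rw [mul_smul]
    exact mem_smul_iff.1 hg
  · intro g _ g' _ hgg
    exact mul_left_cancel hgg
  · intro g hg
    refine ⟨h * g, ?_, by group⟩
    simp only [Finset.mem_filter, Finset.mem_univ, true_and] at hg ⊢
    rw [mul_smul]
    exact Submodule.smul_mem_pointwise_smul _ _ _ hg

theorem finrank_smul (h : G) (L : Submodule k E) : finrank k (h • L : Submodule k E) = finrank k L :=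
  LinearEquiv.finrank_map_eq (DistribMulAction.toLinearEquiv k E h) L

theorem mu_mono (e : E) {L L' : Submodule k E} (h : L ≤ L') : mu G e L ≤ mu G e L' := by
  classical
  unfold mu
  refine Finset.card_le_card fun g hg => ?_
  simp only [Finset.mem_filter, Finset.mem_univ, true_and] at hg ⊢
  exact h hg

theorem mu_le (e : E) (L : Submodule k E) : mu G e L ≤ Fintype.card G := by
  classical
  unfold mu
  exact Finset.card_le_univ _

/-- The number of translates of a subspace of minimal dimension. -/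
theorem few_translates (e : E) (S : Finset (Submodule k E)) {m T T' : ℕ} (hT : 0 < T)
    (hT' : 4 * T ^ 2 ≤ T') (hm : ∀ L ∈ S, mu G e L = m) (hmT : Fintype.card G ≤ m * T)
    (hint : ∀ L ∈ S, ∀ L' ∈ S, L ≠ L' → mu G e (L ⊓ L') * T' ≤ Fintype.card G) :
    S.card ≤ 2 * T ^ 2 := by
  classical
  have hg : 0 < Fintype.card G := Fintype.card_pos
  let f : G → ℕ := fun g => (S.filter fun L => g • e ∈ L).card
  have h1 : ∑ g : G, f g = S.card * m := by
    have h2 : ∀ g, f g = ∑ L ∈ S, if g • e ∈ L then 1 else 0 := fun g => by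
      simp only [f, Finset.card_filter]
    simp only [h2]
    rw [Finset.sum_comm, Finset.sum_congr rfl (g := fun _ => m), Finset.sum_const, smul_eq_mul]
    intro L hL
    rw [← hm L hL]
    unfold mu
    rw [Finset.card_filter]
  have h2 : ∑ g : G, (f g) ^ 2 = ∑ L ∈ S, ∑ L' ∈ S, mu G e (L ⊓ L') := by
    have h3 : ∀ g, (f g) ^ 2 = ∑ L ∈ S, ∑ L' ∈ S, if g • e ∈ L ⊓ L' then 1 else 0 := fun g => by
      simp only [f, Finset.card_filter]
      rw [sq, Finset.sum_mul_sum]
      refine Finset.sum_congr rfl fun L _ => Finset.sum_congr rfl fun L' _ => ?_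
      rw [Submodule.mem_inf]
      by_cases hL : g • e ∈ L <;> by_cases hL' : g • e ∈ L' <;> simp [hL, hL']
    simp only [h3]
    rw [Finset.sum_comm]
    refine Finset.sum_congr rfl fun L _ => ?_
    rw [Finset.sum_comm]
    refine Finset.sum_congr rfl fun L' _ => ?_
    unfold mu
    rw [Finset.card_filter]
  have h3 : (∑ g : G, f g) ^ 2 ≤ Fintype.card G * ∑ g : G, (f g) ^ 2 := by
    have h := sq_sum_le_card_mul_sum_sq (s := (Finset.univ : Finset G)) (f := f)
    rwa [Finset.card_univ] at h
  have h4 : (∑ L ∈ S, ∑ L' ∈ S, mu G e (L ⊓ L')) * T' ≤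
      S.card * (Fintype.card G * T') + S.card ^ 2 * Fintype.card G := by
    rw [Finset.sum_mul]
    calc ∑ L ∈ S, (∑ L' ∈ S, mu G e (L ⊓ L')) * T' ≤
        ∑ L ∈ S, (Fintype.card G * T' + S.card * Fintype.card G) := by
          refine Finset.sum_le_sum fun L hL => ?_
          rw [Finset.sum_mul]
          calc ∑ L' ∈ S, mu G e (L ⊓ L') * T' ≤ ∑ L' ∈ S,
              ((if L' = L then Fintype.card G * T' else 0) + Fintype.card G) := by
                refine Finset.sum_le_sum fun L' hL' => ?_
                by_cases hLL : L' = L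
                · rw [if_pos hLL]
                  exact (Nat.mul_le_mul_right _ (mu_le e _)).trans (Nat.le_add_right _ _)
                · rw [if_neg hLL, zero_add]
                  exact hint L hL L' hL' (Ne.symm hLL)
            _ = _ := by
              rw [Finset.sum_add_distrib, Finset.sum_ite_eq' S L, if_pos hL, Finset.sum_const,
                smul_eq_mul]
      _ = _ := by
        rw [Finset.sum_const, smul_eq_mul]
        ring
  -- put everything together
  rw [h1, h2] at h3
  by_contra hcon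
  push Not at hcon
  set t := S.card with ht
  set N := Fintype.card G with hN
  set Q := ∑ L ∈ S, ∑ L' ∈ S, mu G e (L ⊓ L') with hQ
  have h5 : (t * N) ^ 2 * T' ≤ N * (t * (N * T') + t ^ 2 * N) * T ^ 2 := by
    calc (t * N) ^ 2 * T' ≤ (t * (m * T)) ^ 2 * T' := by
          gcongr
      _ = (t * m) ^ 2 * T' * T ^ 2 := by ring
      _ ≤ (N * Q) * T' * T ^ 2 := by gcongr
      _ = N * (Q * T') * T ^ 2 := by ring
      _ ≤ _ := by gcongr
  have h6 : t * N ^ 2 * (t * T') ≤ t * N ^ 2 * ((T' + t) * T ^ 2) := by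
    calc t * N ^ 2 * (t * T') = (t * N) ^ 2 * T' := by ring
      _ ≤ _ := h5
      _ = _ := by ring
  have ht0 : 0 < t := lt_of_le_of_lt (Nat.zero_le _) hcon
  have h7 : t * T' ≤ (T' + t) * T ^ 2 := Nat.le_of_mul_le_mul_left h6 (by positivity)
  have hT2 : 0 < T ^ 2 := by positivity
  nlinarith [Nat.mul_le_mul_right t hT', Nat.mul_le_mul_right T' hcon]

/-- **The counting theorem.** If most vectors `g e` are killed by one of few linear forms, then a
subgroup of bounded index maps `e` into the kernel of one of them. -/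
theorem count (e : E) (he : e ≠ 0) (M : ℕ → ℕ) (F : ℕ → Finset (E →ₗ[k] k))
    (hF : ∀ r, (F r).card ≤ M r)
    (hbad : ∀ r, 0 < r → ∀ B : Finset G, (∀ g ∈ B, ∀ f ∈ F r, f (g • e) ≠ 0) →
      2 * r * B.card ≤ Fintype.card G) :
    ∃ H : Subgroup G, H.index ≤ 2 * (thr M (finrank k E)) ^ 2 ∧
      ∃ r, ∃ f ∈ F r, ∀ h ∈ H, f (h • e) = 0 := by
  classical
  set D := finrank k E with hD
  have hG : 0 < Fintype.card G := Fintype.card_pos
  let Q : ℕ → Prop := fun d => ∃ L : Submodule k E, finrank k L ≤ d ∧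
    Fintype.card G ≤ mu G e L * thr M (D - d)
  have hQD : Q D := by
    refine ⟨⊤, by rw [finrank_top], ?_⟩
    rw [Nat.sub_self, thr, mul_one]
    unfold mu
    simp
  have hex : ∃ d, Q d := ⟨D, hQD⟩
  set d := Nat.find hex with hd
  have hdD : d ≤ D := Nat.find_min' hex hQD
  obtain ⟨L, hL1, hL2⟩ : Q d := Nat.find_spec hex
  have hd0 : d ≠ 0 := by
    intro h0
    rw [h0] at hL1
    have h1 : L = ⊥ := Submodule.finrank_eq_zero.1 (Nat.le_zero.1 hL1)
    have h2 : mu G e L = 0 := by
      unfold mu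
      rw [Finset.card_eq_zero, Finset.filter_eq_empty_iff]
      intro g _ hg
      rw [h1, Submodule.mem_bot] at hg
      exact he ((smul_eq_zero_iff_eq g).1 hg)
    rw [h2, zero_mul] at hL2
    omega
  set T := thr M (D - d) with hT
  set T' := thr M (D - d + 1) with hT'
  have hTpos : 0 < T := thr_pos M _
  have hTT : 4 * T ^ 2 ≤ T' := thr_succ_ge M _
  have hTT1 : T ≤ T' := thr_le_succ M _
  have hT'eq : T' = 4 * T ^ 2 * (M (2 * T ^ 2) + 1) := by rw [hT', thr]
  have hsmall : ∀ L' : Submodule k E, finrank k L' < d → mu G e L' * T' < Fintype.card G := by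
    intro L' hL'
    by_contra hcon
    push Not at hcon
    have h1 : Q (d - 1) := by
      refine ⟨L', by omega, ?_⟩
      have h2 : D - (d - 1) = D - d + 1 := by omega
      rw [h2]
      exact hcon
    have h2 : d ≤ d - 1 := Nat.find_min' hex h1
    omega
  have hLd : finrank k L = d := by
    by_contra hcon
    have h1 := hsmall L (by omega)
    have h2 := Nat.mul_le_mul_left (mu G e L) hTT1
    omega
  have hmu : 0 < mu G e L := by
    by_contra hcon
    have h1 : mu G e L = 0 := by omega
    rw [h1, zero_mul] at hL2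
    omega
  obtain ⟨g0, hg0⟩ : ∃ g0 : G, g0 • e ∈ L := by
    unfold mu at hmu
    obtain ⟨g, hg⟩ := Finset.card_pos.1 hmu
    exact ⟨g, (Finset.mem_filter.1 hg).2⟩
  set L1 := g0⁻¹ • L with hL1d
  have heL : e ∈ L1 := by
    rw [hL1d, mem_smul_iff, inv_inv]
    exact hg0
  have hL1f : finrank k L1 = d := by rw [hL1d, finrank_smul, hLd]
  have hL1m : mu G e L1 = mu G e L := by rw [hL1d, mu_smul]
  -- the translates
  have hfin : (MulAction.orbit G L1).Finite := Set.finite_range (fun g : G => g • L1)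
  set S := hfin.toFinset with hS
  have hSmem : ∀ L' ∈ S, finrank k L' = d ∧ mu G e L' = mu G e L := by
    intro L' hL'
    rw [hS, Set.Finite.mem_toFinset] at hL'
    obtain ⟨h, rfl⟩ := hL'
    exact ⟨(finrank_smul h L1).trans hL1f, (mu_smul e L1 h).trans hL1m⟩
  have hScard : S.card ≤ 2 * T ^ 2 := by
    refine few_translates e S hTpos hTT (fun L' hL' => (hSmem L' hL').2) hL2 ?_
    intro L' hL' L'' hL'' hne
    refine (hsmall _ ?_).le
    rw [← (hSmem L' hL').1]
    refine Submodule.finrank_lt_finrank_of_lt (lt_of_le_of_ne inf_le_left fun heq => hne ?_)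
    have h1 : L' ≤ L'' := inf_eq_left.1 heq
    exact Submodule.eq_of_le_of_finrank_eq h1 ((hSmem L' hL').1.trans (hSmem L'' hL'').1.symm)
  set H := MulAction.stabilizer G L1 with hH
  have hidx : H.index ≤ 2 * T ^ 2 := by
    rw [hH, MulAction.index_stabilizer]
    have h1 : (MulAction.orbit G L1).ncard = S.card := by
      rw [hS, Set.ncard_eq_toFinset_card _ hfin]
    rw [h1]
    exact hScard
  have hTD : T ≤ thr M D := thr_mono M (Nat.sub_le _ _)
  refine ⟨H, hidx.trans (by gcongr), ?_⟩
  set r := 2 * T ^ 2 with hr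
  have hrpos : 0 < r := by positivity
  refine ⟨r, ?_⟩
  by_contra hcon
  push Not at hcon
  -- elements of the subgroup
  set HF := (Finset.univ.filter fun g : G => g ∈ H) with hHF
  have hHcard : Fintype.card G ≤ HF.card * r := by
    have h1 : HF.card = Nat.card H := by
      rw [hHF, Nat.card_eq_fintype_card, Fintype.card_subtype]
    rw [h1, ← Nat.card_eq_fintype_card, ← H.card_mul_index]
    exact Nat.mul_le_mul_left _ hidx
  obtain ⟨Bad, hBad⟩ : ∃ B : Finset G, ∀ g, g ∈ B ↔ g ∈ HF ∧ ∀ f ∈ F r, f (g • e) ≠ 0 :=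
    ⟨HF.filter _, fun g => Finset.mem_filter⟩
  have hb := hbad r hrpos Bad fun g hg => ((hBad g).1 hg).2
  have hle : HF.card ≤ Bad.card + ∑ f ∈ F r, mu G e (L1 ⊓ LinearMap.ker f) := by
    have h1 : HF ⊆ Bad ∪ (F r).biUnion fun f =>
        Finset.univ.filter fun g : G => g • e ∈ L1 ⊓ LinearMap.ker f := by
      intro g hg
      rw [Finset.mem_union]
      by_cases hgb : ∀ f ∈ F r, f (g • e) ≠ 0
      · exact Or.inl ((hBad g).2 ⟨hg, hgb⟩)
      · right
        push Not at hgb
        obtain ⟨f, hf, hf0⟩ := hgb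
        rw [Finset.mem_biUnion]
        refine ⟨f, hf, Finset.mem_filter.2 ⟨Finset.mem_univ _, ?_⟩⟩
        refine ⟨?_, hf0⟩
        have h2 : g • L1 = L1 := (Finset.mem_filter.1 hg).2
        rw [← h2]
        exact Submodule.smul_mem_pointwise_smul _ _ _ heL
    refine (Finset.card_le_card h1).trans ((Finset.card_union_le _ _).trans ?_)
    exact Nat.add_le_add_left Finset.card_biUnion_le _
  have hsum : (∑ f ∈ F r, mu G e (L1 ⊓ LinearMap.ker f)) * T' ≤ M r * Fintype.card G := by
    rw [Finset.sum_mul]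
    calc ∑ f ∈ F r, mu G e (L1 ⊓ LinearMap.ker f) * T' ≤ ∑ f ∈ F r, Fintype.card G := by
          refine Finset.sum_le_sum fun f hf => (hsmall _ ?_).le
          rw [← hL1f]
          refine Submodule.finrank_lt_finrank_of_lt (lt_of_le_of_ne inf_le_left fun heq => ?_)
          obtain ⟨h, hh, hfh⟩ := hcon f hf
          apply hfh
          have h1 : L1 ≤ LinearMap.ker f := inf_eq_left.1 heq
          have h2 : h • L1 = L1 := hh
          have h3 : h • e ∈ L1 := by
            rw [← h2]
            exact Submodule.smul_mem_pointwise_smul _ _ _ heL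
          exact h1 h3
      _ = (F r).card * Fintype.card G := by rw [Finset.sum_const, smul_eq_mul]
      _ ≤ _ := Nat.mul_le_mul_right _ (hF r)
  set N := Fintype.card G with hN
  set Z := ∑ f ∈ F r, mu G e (L1 ⊓ LinearMap.ker f) with hZ
  -- `2 N ≤ 2 r |H| ≤ 2 r |Bad| + 2 r Z ≤ N + 2 r Z`
  have h1 : N ≤ 2 * r * Z := by
    have h2 : 2 * N ≤ 2 * r * HF.card := by nlinarith
    have h3 : 2 * r * HF.card ≤ 2 * r * Bad.card + 2 * r * Z := by
      rw [← mul_add]
      exact Nat.mul_le_mul_left _ hle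
    omega
  have h2 : N * T' ≤ 2 * r * (M r * N) := by
    calc N * T' ≤ 2 * r * Z * T' := Nat.mul_le_mul_right _ h1
      _ = 2 * r * (Z * T') := by ring
      _ ≤ _ := Nat.mul_le_mul_left _ hsum
  have h3 : N * T' = 2 * r * (M r * N) + 2 * r * N := by
    have h4 : 4 * T ^ 2 = 2 * r := by rw [hr]; ring
    rw [hT'eq, h4]
    ring
  have h4 : 0 < 2 * r * N := by positivity
  omega

end Pool.Agent.TH119.DS
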