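import Mathlib

/-!
# Normal subgroups of semisimple linear groups on which the trace is constant
-/

set_option linter.unusedSectionVars false
set_option linter.style.haveILetI false

namespace Pool.Agent.TH119.DS

open Finset Module

/-- A `p`-group acting on an abelian group of exponent `p` has nonzero fixed points. -/
theorem fixed {p : ℕ} [Fact p.Prime] {G : Type*} [Group G] [Finite G] (hG : IsPGroup p G)
    {V : Type*} [AddCommGroup V] (hp : ∀ v : V, p • v = 0) (a : G →* AddMonoid.End V)
    (W : AddSubgroup V) (hW : ∀ g, ∀ x ∈ W, a g x ∈ W) (hne : ∃ x ∈ W, x ≠ 0) :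
    ∃ x ∈ W, x ≠ 0 ∧ ∀ g, a g x = x := by
  classical
  obtain ⟨v, hv, hv0⟩ := hne
  let A : AddSubgroup V := AddSubgroup.closure (Set.range fun g : G => a g v)
  have hAW : A ≤ W := by
    refine (AddSubgroup.closure_le W).2 ?_
    rintro _ ⟨g, rfl⟩
    exact hW g v hv
  have hvA : v ∈ A := AddSubgroup.subset_closure ⟨1, by simp⟩
  have hAst : ∀ g, ∀ x ∈ A, a g x ∈ A := by
    intro g x hx
    refine AddSubgroup.closure_induction (p := fun x _ => a g x ∈ A) ?_ ?_ ?_ ?_ hx
    · rintro _ ⟨h, rfl⟩
      refine AddSubgroup.subset_closure ⟨g * h, ?_⟩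
      simp only [map_mul]
      rfl
    · rw [map_zero]
      exact A.zero_mem
    · intro x y _ _ hx hy
      rw [map_add]
      exact A.add_mem hx hy
    · intro x _ hx
      rw [map_neg]
      exact A.neg_mem hx
  have hfg : AddGroup.FG A := by
    rw [AddGroup.fg_iff_addSubgroup_fg]
    exact ⟨(Set.finite_range fun g : G => a g v).toFinset, by
      rw [Set.Finite.coe_toFinset]⟩
  have htor : IsAddTorsion A := by
    intro x
    rw [isOfFinAddOrder_iff_nsmul_eq_zero]
    exact ⟨p, (Fact.out : p.Prime).pos, Subtype.ext (hp x)⟩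
  have : Finite A := AddCommGroup.finite_of_fg_isAddTorsion A htor
  letI : MulAction G A :=
    { smul := fun g x => ⟨a g x, hAst g x x.2⟩
      one_smul := fun x => Subtype.ext (by
        change a 1 (x : V) = x
        rw [map_one]
        rfl)
      mul_smul := fun g h x => Subtype.ext (by
        change a (g * h) (x : V) = a g (a h x)
        rw [map_mul]
        rfl) }
  have hsm : ∀ (g : G) (x : A), ((g • x : A) : V) = a g x := fun g x => rfl
  have hdvd : p ∣ Nat.card A := by
    have h1 : addOrderOf (⟨v, hvA⟩ : A) = p := by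
      refine addOrderOf_eq_prime (Subtype.ext (hp v)) ?_
      intro h
      exact hv0 (congrArg Subtype.val h)
    rw [← h1]
    exact addOrderOf_dvd_natCard _
  obtain ⟨b, hb, hb0⟩ := hG.exists_fixed_point_of_prime_dvd_card_of_fixed_point A hdvd (a := 0) (by
    intro g
    exact Subtype.ext (by rw [hsm]; exact map_zero _))
  refine ⟨b, hAW b.2, fun h => hb0 (Subtype.ext h.symm), fun g => ?_⟩
  rw [← hsm, hb g]

variable {k : Type*} [Field k] {n : ℕ}

/-- An element of order invertible in `k` whose powers have the trace of the identity. -/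
theorem eq_one_of_trace (hk : ∀ m : ℕ, 0 < m → m ≤ n → (m : k) ≠ 0)
    (X : Matrix (Fin n) (Fin n) k) {m : ℕ} (hm : (m : k) ≠ 0) (hX : X ^ m = 1)
    (htr : ∀ i : ℕ, (X ^ i).trace = n) : X = 1 := by
  set e : Matrix (Fin n) (Fin n) k := (m : k)⁻¹ • ∑ i ∈ Finset.range m, X ^ i with he
  have h1 : X * e = e := by
    have h2 : (X - 1) * ∑ i ∈ Finset.range m, X ^ i = 0 := by
      rw [mul_geom_sum, hX, sub_self]
    rw [sub_mul, one_mul, sub_eq_zero] at h2
    rw [he, Matrix.mul_smul, h2]
  have h3 : ∀ i : ℕ, X ^ i * e = e := by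
    intro i
    induction i with
    | zero => rw [pow_zero, one_mul]
    | succ i ih => rw [pow_succ, mul_assoc, h1, ih]
  have h4 : e * e = e := by
    conv_lhs => rw [he]
    rw [Matrix.smul_mul, Finset.sum_mul, Finset.sum_congr rfl fun i _ => h3 i, Finset.sum_const,
      Finset.card_range, ← Nat.cast_smul_eq_nsmul k, smul_smul, inv_mul_cancel₀ hm, one_smul]
  have h5 : e.trace = n := by
    rw [he, Matrix.trace_smul, Matrix.trace_sum, Finset.sum_congr rfl fun i _ => htr i,
      Finset.sum_const, Finset.card_range, nsmul_eq_mul, smul_eq_mul, ← mul_assoc,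
      inv_mul_cancel₀ hm, one_mul]
  set f := Matrix.toLin' e with hf
  have h6 : IsIdempotentElem f := by
    change f * f = f
    rw [hf]
    change (Matrix.toLin' e).comp (Matrix.toLin' e) = _
    rw [← Matrix.toLin'_mul, h4]
  have h7 : (finrank k (LinearMap.range f) : k) = n := by
    rw [← (LinearMap.IsIdempotentElem.isProj_range f h6).trace, hf, Matrix.trace_toLin'_eq, h5]
  have h8 : finrank k (LinearMap.range f) ≤ n := by
    refine (Submodule.finrank_le _).trans ?_
    rw [Module.finrank_fin_fun]
  have h9 : finrank k (LinearMap.range f) = n := by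
    by_contra hcon
    have h10 : 0 < n - finrank k (LinearMap.range f) := by omega
    apply hk _ h10 (Nat.sub_le _ _)
    rw [Nat.cast_sub h8, h7, sub_self]
  have h10 : LinearMap.range f = ⊤ := by
    apply Submodule.eq_top_of_finrank_eq
    rw [h9, Module.finrank_fin_fun]
  have h11 : f = LinearMap.id := by
    ext1 i
    ext1
    have h12 : ∀ x, f x = x := by
      intro x
      have h13 : x ∈ LinearMap.range f := by rw [h10]; trivial
      obtain ⟨y, rfl⟩ := h13
      exact LinearMap.congr_fun h6 y
    simp only [LinearMap.comp_apply]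
    rw [h12]
    rfl
  have h12 : e = 1 := by
    apply Matrix.toLin'.injective
    rw [← hf, h11, Matrix.toLin'_one]
  rw [h12, mul_one] at h1
  exact h1

/-- A normal subgroup of a semisimple linear group on which the trace is constant is trivial. -/
theorem trivial_of_trace {G : Type*} [Group G] [Finite G]
    (hk : ∀ m : ℕ, 0 < m → m ≤ n → (m : k) ≠ 0)
    (ρ : G →* Matrix.GeneralLinearGroup (Fin n) k) (hρ : Function.Injective ρ)
    (hss : ∀ W : Submodule k (Fin n → k),
      (∀ g, ∀ x ∈ W, (ρ g : Matrix (Fin n) (Fin n) k).mulVec x ∈ W) →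
      ∃ W' : Submodule k (Fin n → k),
        (∀ g, ∀ x ∈ W', (ρ g : Matrix (Fin n) (Fin n) k).mulVec x ∈ W') ∧ IsCompl W W')
    (N : Subgroup G) [hN : N.Normal]
    (htr : ∀ h ∈ N, (ρ h : Matrix (Fin n) (Fin n) k).trace = n) : N = ⊥ := by
  have hval : ∀ (g : G) (i : ℕ), ((ρ (g ^ i) : Matrix (Fin n) (Fin n) k)) =
      (ρ g : Matrix (Fin n) (Fin n) k) ^ i := fun g i => by
    rw [map_pow, Units.val_pow_eq_pow_val]
  -- orders
  have hord : ∀ h ∈ N, ∀ m : ℕ, (m : k) ≠ 0 → h ^ m = 1 → h = 1 := by
    intro h hh m hm hhm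
    apply hρ
    rw [map_one]
    apply Units.ext
    rw [Units.val_one]
    refine eq_one_of_trace hk _ hm ?_ fun i => ?_
    · rw [← hval, hhm, map_one, Units.val_one]
    · rw [← hval]
      exact htr _ (N.pow_mem hh i)
  obtain ⟨p, hp⟩ := CharP.exists k
  rcases CharP.char_is_prime_or_zero k p with hpp | hp0
  · haveI : Fact p.Prime := ⟨hpp⟩
    have hpg : IsPGroup p N := by
      rw [isPGroup_iff_pow_pow_eq_one]
      rintro ⟨h, hh⟩
      obtain ⟨a, m, hm, hme⟩ := Nat.exists_eq_pow_mul_and_not_dvd (orderOf_pos h).ne' p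
        hpp.ne_one
      refine ⟨a, ?_⟩
      apply Subtype.ext
      change h ^ p ^ a = 1
      refine hord _ (N.pow_mem hh _) m ?_ ?_
      · rw [Ne, CharP.cast_eq_zero_iff k p]
        exact hm
      · rw [← pow_mul, ← hme, pow_orderOf_eq_one]
    let I : Submodule k (Fin n → k) :=
      { carrier := {x | ∀ h ∈ N, (ρ h : Matrix (Fin n) (Fin n) k).mulVec x = x}
        zero_mem' := fun h _ => Matrix.mulVec_zero _
        add_mem' := fun {x y} hx hy h hh => by rw [Matrix.mulVec_add, hx h hh, hy h hh]
        smul_mem' := fun c x hx h hh => by rw [Matrix.mulVec_smul, hx h hh] }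
    have hI : ∀ x, x ∈ I ↔ ∀ h ∈ N, (ρ h : Matrix (Fin n) (Fin n) k).mulVec x = x :=
      fun x => Iff.rfl
    have hmul : ∀ (g h : G) (x : Fin n → k), (ρ (g * h) : Matrix (Fin n) (Fin n) k).mulVec x =
        (ρ g : Matrix (Fin n) (Fin n) k).mulVec
          ((ρ h : Matrix (Fin n) (Fin n) k).mulVec x) := by
      intro g h x
      rw [map_mul, Units.val_mul, Matrix.mulVec_mulVec]
    obtain ⟨W, hW, hIW⟩ := hss I (by
      intro g x hx h hh
      have h1 : h * g = g * (g⁻¹ * h * g) := by group
      have h2 : g⁻¹ * h * g ∈ N := by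
        have := hN.conj_mem h hh g⁻¹
        rwa [inv_inv] at this
      rw [← hmul, h1, hmul, hx _ h2])
    have hW0 : W = ⊥ := by
      by_contra hcon
      obtain ⟨x, hx, hx0⟩ := Submodule.exists_mem_ne_zero_of_ne_bot hcon
      let a : N →* AddMonoid.End (Fin n → k) :=
        { toFun := fun h => (Matrix.toLin' (ρ h : Matrix (Fin n) (Fin n) k)).toAddMonoidHom
          map_one' := by
            ext1 x
            change (ρ ((1 : N) : G) : Matrix (Fin n) (Fin n) k).mulVec x = x
            rw [Subgroup.coe_one, map_one, Units.val_one, Matrix.one_mulVec]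
          map_mul' := fun g h => by
            ext1 x
            change (ρ ((g * h : N) : G) : Matrix (Fin n) (Fin n) k).mulVec x = _
            rw [Subgroup.coe_mul, hmul]
            rfl }
      obtain ⟨y, hy, hy0, hy1⟩ := fixed hpg (V := Fin n → k) (fun v => by
        ext i
        rw [Pi.smul_apply, nsmul_eq_mul, CharP.cast_eq_zero, zero_mul]
        rfl) a W.toAddSubgroup (fun g x hx => hW g x hx) ⟨x, hx, hx0⟩
      apply hy0
      have h1 : y ∈ I := fun h hh => hy1 ⟨h, hh⟩
      have h2 : y ∈ I ⊓ W := ⟨h1, hy⟩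
      rw [hIW.inf_eq_bot, Submodule.mem_bot] at h2
      exact h2
    have hItop : I = ⊤ := by
      have h1 := hIW.sup_eq_top
      rwa [hW0, sup_bot_eq] at h1
    rw [Subgroup.eq_bot_iff_forall]
    intro h hh
    apply hρ
    rw [map_one]
    apply Units.ext
    rw [Units.val_one]
    apply Matrix.toLin'.injective
    refine LinearMap.ext fun x => ?_
    rw [Matrix.toLin'_apply, Matrix.toLin'_one, LinearMap.id_apply]
    have h1 : x ∈ I := by rw [hItop]; trivial
    exact h1 h hh
  · subst hp0
    haveI := CharP.charP_to_charZero k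
    rw [Subgroup.eq_bot_iff_forall]
    intro h hh
    exact hord h hh (orderOf h) (Nat.cast_ne_zero.2 (orderOf_pos h).ne') (pow_orderOf_eq_one h)

end Pool.Agent.TH119.DS
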