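import Mathlib
import Pool.Agent.TH119.DS.Count
import Pool.Agent.TH119.DS.PGrp

/-!
# Semisimple linear groups with few traces are bounded
-/

set_option linter.unusedSectionVars false
set_option linter.style.haveILetI false

namespace Pool.Agent.TH119.DS

open Finset Module

variable {k : Type*} [Field k] {n : ℕ}

/-- The bound. -/
def bd (n : ℕ) (M : ℕ → ℕ) : ℕ := (2 * (thr M (n ^ 2 + 1)) ^ 2).factorial

/-- **Bounded order.** -/
theorem bounded {G : Type*} [Group G] [Finite G]
    (hk : ∀ m : ℕ, 0 < m → m ≤ n → (m : k) ≠ 0)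
    (ρ : G →* Matrix.GeneralLinearGroup (Fin n) k) (hρ : Function.Injective ρ)
    (hss : ∀ W : Submodule k (Fin n → k),
      (∀ g, ∀ x ∈ W, (ρ g : Matrix (Fin n) (Fin n) k).mulVec x ∈ W) →
      ∃ W' : Submodule k (Fin n → k),
        (∀ g, ∀ x ∈ W', (ρ g : Matrix (Fin n) (Fin n) k).mulVec x ∈ W') ∧ IsCompl W W')
    (M : ℕ → ℕ) (X : ℕ → Finset k) (hX : ∀ r, (X r).card ≤ M r)
    (hbad : ∀ r, 0 < r → ∀ B : Finset G,
      (∀ g ∈ B, (ρ g : Matrix (Fin n) (Fin n) k).trace ∉ X r) → 2 * r * B.card ≤ Nat.card G) :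
    Nat.card G ≤ bd n M := by
  classical
  haveI : Fintype G := Fintype.ofFinite G
  -- the action
  let act : G →* Module.End k (Matrix (Fin n) (Fin n) k × k) :=
    { toFun := fun g => LinearMap.prodMap
        (LinearMap.mulLeft k (ρ g : Matrix (Fin n) (Fin n) k)) LinearMap.id
      map_one' := by
        ext x <;> simp
      map_mul' := fun g h => by
        ext x <;> simp [mul_assoc] }
  letI : DistribMulAction G (Matrix (Fin n) (Fin n) k × k) := DistribMulAction.compHom _ act
  have hsm : ∀ (g : G) (x : Matrix (Fin n) (Fin n) k × k),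
      g • x = ((ρ g : Matrix (Fin n) (Fin n) k) * x.1, x.2) := fun g x => rfl
  haveI : SMulCommClass G k (Matrix (Fin n) (Fin n) k × k) := ⟨fun g c x => by
    rw [hsm, hsm]
    ext <;> simp⟩
  let e : Matrix (Fin n) (Fin n) k × k := (1, 1)
  have he : e ≠ 0 := fun h => one_ne_zero (congrArg Prod.snd h)
  let fm : k → (Matrix (Fin n) (Fin n) k × k) →ₗ[k] k := fun x =>
    (Matrix.traceLinearMap (Fin n) k k).comp (LinearMap.fst k _ _) -
      x • (LinearMap.snd k (Matrix (Fin n) (Fin n) k) k)
  have hfm : ∀ (x : k) (g : G), fm x (g • e) =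
      (ρ g : Matrix (Fin n) (Fin n) k).trace - x := by
    intro x g
    simp only [fm, hsm, e, mul_one, LinearMap.sub_apply, LinearMap.comp_apply,
      LinearMap.fst_apply, Matrix.traceLinearMap_apply, LinearMap.smul_apply,
      LinearMap.snd_apply, smul_eq_mul]
  obtain ⟨H, hH, r, f, hf, hfH⟩ := count (k := k) (G := G) e he M (fun r => (X r).image fm)
    (fun r => Finset.card_image_le.trans (hX r)) (by
      intro r hr B hB
      rw [← Nat.card_eq_fintype_card]
      refine hbad r hr B fun g hg hgX => ?_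
      have h1 := hB g hg (fm (ρ g : Matrix (Fin n) (Fin n) k).trace)
        (Finset.mem_image_of_mem _ hgX)
      rw [hfm, sub_self] at h1
      exact h1 rfl)
  have hdim : finrank k (Matrix (Fin n) (Fin n) k × k) = n ^ 2 + 1 := by
    rw [Module.finrank_prod, Module.finrank_matrix, Module.finrank_self, Fintype.card_fin]
    ring
  rw [hdim] at hH
  obtain ⟨x, _, rfl⟩ := Finset.mem_image.1 hf
  have hx : x = n := by
    have h1 := hfH 1 H.one_mem
    rw [hfm, map_one, Units.val_one, Matrix.trace_one, Fintype.card_fin, sub_eq_zero] at h1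
    exact h1.symm
  have htr : ∀ h ∈ H.normalCore, (ρ h : Matrix (Fin n) (Fin n) k).trace = n := by
    intro h hh
    have h1 := hfH h (H.normalCore_le hh)
    rw [hfm, hx, sub_eq_zero] at h1
    exact h1
  have hN := trivial_of_trace hk ρ hρ hss H.normalCore htr
  have h2 : H.normalCore.index ∣ (H.index).factorial := by
    rw [Subgroup.normalCore_eq_ker, Subgroup.index_ker, Subgroup.index_eq_card, ← Nat.card_perm]
    exact Subgroup.card_subgroup_dvd_card (MulAction.toPermHom G (G ⧸ H)).range
  rw [hN, Subgroup.index_bot] at h2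
  exact (Nat.le_of_dvd (Nat.factorial_pos _) h2).trans (Nat.factorial_le hH)

end Pool.Agent.TH119.DS
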