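import Mathlib

/-!
# Representations in characteristic zero from infinitely many representations modulo primes
-/

set_option linter.unusedSectionVars false
set_option linter.style.haveILetI false

namespace Pool.Agent.TH119.DS

open MvPolynomial Polynomial

/-- Points in characteristic zero. -/
theorem exists_point {σ : Type} [Finite σ] {R F Ω : Type} [CommRing R] [IsDomain R] [Field F]
    [Field Ω] [IsAlgClosed Ω]
    [Algebra R F] [IsFractionRing R F] (ι : F →+* Ω) (I : Ideal (MvPolynomial σ R))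
    (hI : ∀ a : R, a ≠ 0 → (MvPolynomial.C a : MvPolynomial σ R) ∉ I) :
    ∃ Ψ : MvPolynomial σ R →+* Ω, (∀ a : R, Ψ (MvPolynomial.C a) = ι (algebraMap R F a)) ∧
      ∀ f ∈ I, Ψ f = 0 := by
  classical
  letI : Algebra (MvPolynomial σ R) (MvPolynomial σ F) := MvPolynomial.algebraMvPolynomial
  haveI : IsLocalization ((nonZeroDivisors R).map (MvPolynomial.C (σ := σ)))
      (MvPolynomial σ F) := MvPolynomial.isLocalization (nonZeroDivisors R) F
  have h1 : I.map (algebraMap (MvPolynomial σ R) (MvPolynomial σ F)) ≠ ⊤ := by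
    rw [IsLocalization.map_algebraMap_ne_top_iff_disjoint
      ((nonZeroDivisors R).map (MvPolynomial.C (σ := σ))), Set.disjoint_left]
    rintro _ ⟨a, ha, rfl⟩ h2
    exact hI a (nonZeroDivisors.ne_zero ha) h2
  obtain ⟨m, hm, hIm⟩ := Ideal.exists_le_maximal _ h1
  letI : Field (MvPolynomial σ F ⧸ m) := Ideal.Quotient.field m
  haveI : Module.Finite F (MvPolynomial σ F ⧸ m) := finite_of_finite_type_of_isJacobsonRing F _
  letI : Algebra F Ω := ι.toAlgebra
  let L : (MvPolynomial σ F ⧸ m) →ₐ[F] Ω := IsAlgClosed.lift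
  refine ⟨(L : (MvPolynomial σ F ⧸ m) →+* Ω).comp
    ((Ideal.Quotient.mk m).comp (algebraMap (MvPolynomial σ R) (MvPolynomial σ F))), ?_, ?_⟩
  · intro a
    have h2 : algebraMap (MvPolynomial σ R) (MvPolynomial σ F) (MvPolynomial.C a) =
        MvPolynomial.C (algebraMap R F a) := by
      rw [MvPolynomial.algebraMap_def, MvPolynomial.map_C]
    rw [RingHom.comp_apply, RingHom.comp_apply, h2]
    exact L.commutes (algebraMap R F a)
  · intro f hf
    have h2 : (Ideal.Quotient.mk m)
        (algebraMap (MvPolynomial σ R) (MvPolynomial σ F) f) = 0 :=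
      Ideal.Quotient.eq_zero_iff_mem.2 (hIm (Ideal.mem_map_of_mem _ hf))
    rw [RingHom.comp_apply, RingHom.comp_apply, h2, map_zero]

variable {Q : Type} [Group Q] [Finite Q] {n : ℕ}

/-- The generic matrices. -/
noncomputable def gen (n : ℕ) (R : Type) [CommRing R] (q : Q) :
    Matrix (Fin n) (Fin n) (MvPolynomial (Q × Fin n × Fin n) R) :=
  Matrix.of fun i j => MvPolynomial.X (q, i, j)

/-- The equations of a representation with given characteristic polynomials. -/
def eqs {R : Type} [CommRing R] (p : Q → R[X]) : Set (MvPolynomial (Q × Fin n × Fin n) R) :=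
  {f | (∃ (q q' : Q) (i j : Fin n), f = (gen n R (q * q') - gen n R q * gen n R q' :
      Matrix (Fin n) (Fin n) (MvPolynomial (Q × Fin n × Fin n) R)) i j) ∨
    (∃ i j : Fin n, f = (gen n R (1 : Q) - 1 :
      Matrix (Fin n) (Fin n) (MvPolynomial (Q × Fin n × Fin n) R)) i j) ∨
    ∃ (q : Q) (m : ℕ), f = ((gen n R q).charpoly - (p q).map MvPolynomial.C).coeff m}

theorem eqs_iff {R B : Type} [CommRing R] [CommRing B] (p : Q → R[X])
    (Ψ : MvPolynomial (Q × Fin n × Fin n) R →+* B) : (∀ f ∈ eqs p, Ψ f = 0) ↔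
      (∀ q q', (gen n R (q * q')).map Ψ = (gen n R q).map Ψ * (gen n R q').map Ψ) ∧
      (gen n R (1 : Q)).map Ψ = (1 : Matrix (Fin n) (Fin n) B) ∧
      ∀ q, ((gen n R q).map Ψ).charpoly = (p q).map (Ψ.comp MvPolynomial.C) := by
  constructor
  · intro h
    refine ⟨fun q q' => ?_, ?_, fun q => ?_⟩
    · ext i j
      have h1 := h _ (Or.inl ⟨q, q', i, j, rfl⟩)
      rw [Matrix.sub_apply, map_sub, sub_eq_zero] at h1
      rw [Matrix.map_apply, h1, ← Matrix.map_mul]
      rfl
    · ext i j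
      have h1 := h _ (Or.inr (Or.inl ⟨i, j, rfl⟩))
      rw [Matrix.sub_apply, map_sub, sub_eq_zero] at h1
      rw [Matrix.map_apply, h1, Matrix.one_apply, Matrix.one_apply]
      split_ifs
      · exact map_one Ψ
      · exact map_zero Ψ
    · ext m
      have h1 := h _ (Or.inr (Or.inr ⟨q, m, rfl⟩))
      rw [Polynomial.coeff_sub, map_sub, sub_eq_zero, Polynomial.coeff_map] at h1
      have h2 := Matrix.charpoly_map (gen n R q) Ψ
      rw [h2, Polynomial.coeff_map, Polynomial.coeff_map, h1]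
      rfl
  · rintro ⟨h1, h2, h3⟩ f (⟨q, q', i, j, rfl⟩ | ⟨i, j, rfl⟩ | ⟨q, m, rfl⟩)
    · rw [Matrix.sub_apply, map_sub, sub_eq_zero]
      have h4 := congrFun (congrFun (h1 q q') i) j
      rw [Matrix.map_apply, ← Matrix.map_mul] at h4
      exact h4
    · rw [Matrix.sub_apply, map_sub, sub_eq_zero]
      have h4 := congrFun (congrFun h2 i) j
      rw [Matrix.map_apply] at h4
      rw [h4, Matrix.one_apply, Matrix.one_apply]
      split_ifs
      · exact (map_one Ψ).symm
      · exact (map_zero Ψ).symm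
    · rw [Polynomial.coeff_sub, map_sub, sub_eq_zero, Polynomial.coeff_map]
      have h4 := h3 q
      rw [Matrix.charpoly_map] at h4
      have h5 := congrArg (fun P => Polynomial.coeff P m) h4
      simp only [Polynomial.coeff_map] at h5
      exact h5

/-- **Lifting.** -/
theorem exists_rep {R F Ω : Type} [CommRing R] [IsDomain R] [Field F] [Field Ω] [IsAlgClosed Ω]
    [Algebra R F] [IsFractionRing R F] (ι : F →+* Ω) (p : Q → Polynomial R)
    {J : Type} (k : J → Type) [∀ j, Field (k j)] (φ : ∀ j, R →+* k j)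
    (hφ : ∀ a : R, a ≠ 0 → ∃ j, φ j a ≠ 0)
    (r : ∀ j, Q →* Matrix.GeneralLinearGroup (Fin n) (k j))
    (hr : ∀ j q, (r j q : Matrix (Fin n) (Fin n) (k j)).charpoly = (p q).map (φ j)) :
    ∃ r : Q →* Matrix.GeneralLinearGroup (Fin n) Ω,
      ∀ q, (r q : Matrix (Fin n) (Fin n) Ω).charpoly = (p q).map (ι.comp (algebraMap R F)) := by
  obtain ⟨Ψ, h1, h2⟩ := exists_point ι (Ideal.span (eqs (n := n) p)) (by
    intro a ha hmem
    obtain ⟨j, hj⟩ := hφ a ha
    let Ψ : MvPolynomial (Q × Fin n × Fin n) R →+* k j := MvPolynomial.eval₂Hom (φ j)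
      fun x => (r j x.1 : Matrix (Fin n) (Fin n) (k j)) x.2.1 x.2.2
    have hgen : ∀ q, (gen n R q).map Ψ = (r j q : Matrix (Fin n) (Fin n) (k j)) := by
      intro q
      ext i l
      rw [Matrix.map_apply, gen, Matrix.of_apply]
      exact MvPolynomial.eval₂_X _ _ _
    have hC : Ψ.comp MvPolynomial.C = φ j := by
      refine RingHom.ext fun x => ?_
      exact MvPolynomial.eval₂_C _ _ _
    have hkill : ∀ f ∈ eqs (n := n) p, Ψ f = 0 := by
      rw [eqs_iff]
      refine ⟨fun q q' => ?_, ?_, fun q => ?_⟩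
      · rw [hgen, hgen, hgen, map_mul, Units.val_mul]
      · rw [hgen, map_one, Units.val_one]
      · rw [hgen, hr, hC]
    have hker : Ideal.span (eqs (n := n) p) ≤ RingHom.ker Ψ := Ideal.span_le.2 hkill
    have h3 : Ψ (MvPolynomial.C a) = 0 := hker hmem
    apply hj
    rw [← hC]
    exact h3)
  have h3 := (eqs_iff (n := n) p Ψ).1 fun f hf => h2 f (Ideal.subset_span hf)
  obtain ⟨h4, h5, h6⟩ := h3
  have hC : Ψ.comp MvPolynomial.C = ι.comp (algebraMap R F) := RingHom.ext h1
  let A : Q →* Matrix (Fin n) (Fin n) Ω :=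
    { toFun := fun q => (gen n R q).map Ψ
      map_one' := h5
      map_mul' := h4 }
  refine ⟨A.toHomUnits, fun q => ?_⟩
  rw [MonoidHom.coe_toHomUnits]
  change ((gen n R q).map Ψ).charpoly = _
  rw [h6, hC]

end Pool.Agent.TH119.DS
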