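import Mathlib
import Pool.Agent.TH119.DS.Bound
import Pool.Agent.TH119.DS.Lift
import Pool.Agent.W540.BE.Freq
import Pool.Agent.W401.Cheb.Frob

/-!
# Galois representations modulo primes: bounded images
-/

set_option linter.unusedSectionVars false
set_option linter.style.haveILetI false

namespace Pool.Agent.TH119.DS

open NumberField IsDedekindDomain Polynomial Filter Topology
open Pool.Agent.W401.Cheb (GK IsFrob IsInert)
open Pool.Agent.W540.BE (upto nm cheb_mean mem_upto)

variable {K E : Type} [Field K] [NumberField K] [Field E] [NumberField E] {n : ℕ}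

/-- The residue characteristic is excluded for almost all primes. -/
theorem finite_char (k : Type) [Field k] :
    {v : HeightOneSpectrum (𝓞 K) | ((Ideal.absNorm v.asIdeal : ℕ) : k) = 0}.Finite := by
  obtain ⟨p, hp⟩ := CharP.exists k
  rcases CharP.char_is_prime_or_zero k p with hpp | hp0
  · haveI : Fact p.Prime := ⟨hpp⟩
    have h0 : Ideal.span {(p : 𝓞 K)} ≠ 0 := by
      rw [Ne, Ideal.zero_eq_bot, Ideal.span_singleton_eq_bot]
      exact_mod_cast hpp.ne_zero
    refine (Ideal.finite_factors h0).subset ?_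
    intro v hv
    have hv' : ((Ideal.absNorm v.asIdeal : ℕ) : k) = 0 := hv
    rw [CharP.cast_eq_zero_iff k p] at hv'
    rw [Set.mem_ofPred_eq, Ideal.dvd_span_singleton]
    haveI : v.asIdeal.IsMaximal := v.isMaximal
    letI : Field (𝓞 K ⧸ v.asIdeal) := Ideal.Quotient.field _
    haveI : Finite (𝓞 K ⧸ v.asIdeal) := Ideal.finiteQuotientOfFreeOfNeBot _ v.ne_bot
    rw [Ideal.absNorm_apply, Submodule.cardQuot_apply] at hv'
    obtain ⟨x, hx⟩ := exists_prime_addOrderOf_dvd_card' p hv'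
    have hx0 : x ≠ 0 := by
      rintro rfl
      rw [addOrderOf_zero] at hx
      exact hpp.one_lt.ne hx
    have h1 : p • x = 0 := by rw [← hx]; exact addOrderOf_nsmul_eq_zero x
    rw [nsmul_eq_mul] at h1
    rcases mul_eq_zero.1 h1 with h2 | h2
    · rw [← Ideal.Quotient.eq_zero_iff_mem, map_natCast]
      exact h2
    · exact absurd h2 hx0
  · subst hp0
    haveI := CharP.charP_to_charZero k
    convert Set.finite_empty
    ext v
    rw [Set.mem_ofPred_eq, Nat.cast_eq_zero, Set.mem_empty_iff_false, iff_false,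
      Ideal.absNorm_eq_zero_iff]
    exact v.ne_bot

section freq

variable (U : Subgroup (GK K)) [U.Normal]

theorem freq (hU : IsOpen (U : Set (GK K))) (s : HeightOneSpectrum (𝓞 K) → GK K)
    (hs : ∀ v, IsFrob v (s v)) (D : Set (GK K ⧸ U)) (hD : ∀ a ∈ D, ∀ g, g * a * g⁻¹ ∈ D)
    (c b : ℝ) (h : ∀ (N : ℕ) (T : Finset (HeightOneSpectrum (𝓞 K))),
      (∀ v ∈ T, Ideal.absNorm v.asIdeal ≤ N ∧ (QuotientGroup.mk (s v) : GK K ⧸ U) ∈ D) →
      (T.card : ℝ) ≤ c * Nat.primeCounting N + b) :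
    (D.ncard : ℝ) ≤ c * Nat.card (GK K ⧸ U) := by
  classical
  haveI hfin : Finite (GK K ⧸ U) := Subgroup.quotient_finite_of_isOpen U hU
  haveI : Fintype (GK K ⧸ U) := Fintype.ofFinite _
  have h1 := cheb_mean U hU (fun q => if q ∈ D then (1 : ℂ) else 0) (by
    intro a g
    by_cases ha : a ∈ D
    · rw [if_pos ha, if_pos (hD a ha g)]
    · rw [if_neg ha, if_neg]
      intro h2
      apply ha
      have h3 := hD _ h2 g⁻¹
      have h4 : g⁻¹ * (g * a * g⁻¹) * g⁻¹⁻¹ = a := by group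
      rwa [h4] at h3) s hs
  have hcard : (0 : ℝ) < Nat.card (GK K ⧸ U) := by exact_mod_cast Nat.card_pos
  have h2 : (∑ᶠ q : GK K ⧸ U, if q ∈ D then (1 : ℂ) else 0) = (D.ncard : ℂ) := by
    rw [finsum_eq_sum_of_fintype, Finset.sum_ite, Finset.sum_const_zero, add_zero,
      Finset.sum_const, nsmul_eq_mul, mul_one]
    congr 1
    rw [← Set.ncard_coe_finset]
    congr 1
    ext q
    simp
  rw [h2] at h1
  have h3 : Tendsto (fun N : ℕ =>
      ((((upto K N).filter fun v => (QuotientGroup.mk (s v) : GK K ⧸ U) ∈ D).card : ℝ) /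
        (Nat.primeCounting N : ℝ))) atTop (𝓝 ((Nat.card (GK K ⧸ U) : ℝ)⁻¹ * D.ncard)) := by
    have h4 := (Complex.continuous_re.tendsto _).comp h1
    have h5 : ((Nat.card (GK K ⧸ U) : ℂ)⁻¹ * (D.ncard : ℂ)).re =
        (Nat.card (GK K ⧸ U) : ℝ)⁻¹ * D.ncard := by
      have : ((Nat.card (GK K ⧸ U) : ℂ)⁻¹ * (D.ncard : ℂ)) =
          (((Nat.card (GK K ⧸ U) : ℝ)⁻¹ * (D.ncard : ℝ) : ℝ) : ℂ) := by push_cast; rfl
      rw [this, Complex.ofReal_re]
    rw [h5] at h4
    refine h4.congr fun N => ?_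
    have h6 : (∑ v ∈ upto K N, if (QuotientGroup.mk (s v) : GK K ⧸ U) ∈ D then (1 : ℂ) else 0) /
        (Nat.primeCounting N : ℂ) =
        ((((((upto K N).filter fun v => (QuotientGroup.mk (s v) : GK K ⧸ U) ∈ D).card : ℝ) /
        (Nat.primeCounting N : ℝ) : ℝ)) : ℂ) := by
      rw [Finset.sum_ite, Finset.sum_const_zero, add_zero, Finset.sum_const, nsmul_eq_mul,
        mul_one]
      push_cast
      rfl
    rw [Function.comp_apply, h6, Complex.ofReal_re]
  have hpi : Tendsto (fun N : ℕ => (Nat.primeCounting N : ℝ)) atTop atTop :=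
    tendsto_natCast_atTop_atTop.comp Nat.tendsto_primeCounting
  have h4 : Tendsto (fun N : ℕ => c + b / (Nat.primeCounting N : ℝ)) atTop (𝓝 (c + 0)) :=
    tendsto_const_nhds.add (tendsto_const_nhds.div_atTop hpi)
  rw [add_zero] at h4
  have h5 : (Nat.card (GK K ⧸ U) : ℝ)⁻¹ * D.ncard ≤ c := by
    refine le_of_tendsto_of_tendsto h3 h4 ?_
    filter_upwards [hpi.eventually_gt_atTop 0] with N hN
    rw [div_le_iff₀ hN, add_mul, div_mul_cancel₀ _ hN.ne']
    refine h N _ fun v hv => ?_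
    rw [Finset.mem_filter] at hv
    exact ⟨mem_upto.1 hv.1, hv.2⟩
  rw [inv_mul_le_iff₀ hcard] at h5
  linarith

/-- Every class contains Frobenius elements at primes outside a finite set. -/
theorem exists_frob_mem (hU : IsOpen (U : Set (GK K))) (F : Set (HeightOneSpectrum (𝓞 K)))
    (hF : F.Finite) (σ : GK K) : ∃ v ∉ F, ∃ τ, IsFrob v τ ∧
      (QuotientGroup.mk τ : GK K ⧸ U) = QuotientGroup.mk σ := by
  classical
  have hfrob := (Pool.Agent.W401.Frob.main K).1
  choose s hs using hfrob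
  set D : Set (GK K ⧸ U) := {q | ∃ g : GK K ⧸ U, q = g * QuotientGroup.mk σ * g⁻¹} with hD
  by_contra hcon
  push Not at hcon
  haveI hfin : Finite (GK K ⧸ U) := Subgroup.quotient_finite_of_isOpen U hU
  have h1 := freq U hU s hs D (by
    rintro _ ⟨g, rfl⟩ g'
    exact ⟨g' * g, by group⟩) 0 hF.toFinset.card (by
    intro N T hT
    rw [zero_mul, zero_add, Nat.cast_le]
    refine Finset.card_le_card fun v hv => ?_
    rw [Set.Finite.mem_toFinset]
    by_contra hvF
    obtain ⟨g, hg⟩ := (hT v hv).2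
    obtain ⟨γ, rfl⟩ := QuotientGroup.mk_surjective g
    apply hcon v hvF (γ⁻¹ * s v * γ⁻¹⁻¹)
    · exact (Pool.Agent.W401.Frob.main K).2.2 v _ _ (hs v)
    · rw [inv_inv, QuotientGroup.mk_mul, QuotientGroup.mk_mul, hg, QuotientGroup.mk_inv]
      group)
  rw [zero_mul] at h1
  have h2 : (QuotientGroup.mk σ : GK K ⧸ U) ∈ D := ⟨1, by group⟩
  have h3 : 0 < D.ncard := (Set.ncard_pos (Set.toFinite D)).2 ⟨_, h2⟩
  have h4 : (0 : ℝ) < D.ncard := by exact_mod_cast h3
  linarith

end freq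

/-- A semisimple representation modulo a prime with prescribed characteristic polynomials of
Frobenius elements. -/
structure Att (P : HeightOneSpectrum (𝓞 K) → (𝓞 E)[X]) (S : Set (HeightOneSpectrum (𝓞 K)))
    (k : Type) [Field k] (φ : 𝓞 E →+* k)
    (ρ : GK K →* Matrix.GeneralLinearGroup (Fin n) k) : Prop where
  isOpen : IsOpen (ρ.ker : Set (GK K))
  ss : ∀ W : Submodule k (Fin n → k),
    (∀ g, ∀ x ∈ W, (ρ g : Matrix (Fin n) (Fin n) k).mulVec x ∈ W) →
    ∃ W' : Submodule k (Fin n → k),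
      (∀ g, ∀ x ∈ W', (ρ g : Matrix (Fin n) (Fin n) k).mulVec x ∈ W') ∧ IsCompl W W'
  unr : ∀ v ∉ S, ((Ideal.absNorm v.asIdeal : ℕ) : k) ≠ 0 → ∀ σ, IsInert v σ → ρ σ = 1
  frob : ∀ v ∉ S, ((Ideal.absNorm v.asIdeal : ℕ) : k) ≠ 0 → ∀ σ, IsFrob v σ →
    (ρ σ : Matrix (Fin n) (Fin n) k).charpoly = (P v).map φ

theorem finite_X (R : ℝ) : {a : 𝓞 E | ∀ ι : E →+* ℂ, ‖ι (a : E)‖ ≤ R}.Finite := by
  have h1 := NumberField.Embeddings.finite_of_norm_le E ℂ R
  refine Set.Finite.subset (h1.preimage (f := fun a : 𝓞 E => (a : E))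
    (Subtype.val_injective.injOn)) ?_
  intro a ha
  exact ⟨a.2, ha⟩

/-- **Uniform bound of the images.** -/
theorem order_le (hn : 0 < n) (P : HeightOneSpectrum (𝓞 K) → (𝓞 E)[X])
    (S : Set (HeightOneSpectrum (𝓞 K))) (hS : S.Finite)
    (hRS : ∀ ι : E →+* ℂ, ∃ C : ℝ, ∀ (N : ℕ) (T : Finset (HeightOneSpectrum (𝓞 K))),
      (∀ v ∈ T, v ∉ S ∧ Ideal.absNorm v.asIdeal ≤ N) →
      ∑ v ∈ T, ‖ι ((P v).coeff (n - 1) : 𝓞 E)‖ ^ 2 ≤ C * Nat.primeCounting N) :
    ∃ A : ℕ, ∀ (k : Type) [Field k] (φ : 𝓞 E →+* k)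
      (ρ : GK K →* Matrix.GeneralLinearGroup (Fin n) k), Att P S k φ ρ →
      (∀ m : ℕ, 0 < m → m ≤ n → (m : k) ≠ 0) → Nat.card (GK K ⧸ ρ.ker) ≤ A := by
  classical
  choose C hC using hRS
  set Cs : ℝ := ∑ ι : E →+* ℂ, |C ι| with hCs
  have hCs0 : 0 ≤ Cs := Finset.sum_nonneg fun _ _ => abs_nonneg _
  let R : ℕ → ℝ := fun r => Real.sqrt (2 * r * Cs + 1)
  have hR : ∀ r, R r ^ 2 = 2 * r * Cs + 1 := fun r => Real.sq_sqrt (by positivity)
  have hR0 : ∀ r, 0 ≤ R r := fun r => Real.sqrt_nonneg _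
  let X : ℕ → Finset (𝓞 E) := fun r => (finite_X (E := E) (R r)).toFinset
  have hX : ∀ r a, a ∈ X r ↔ ∀ ι : E →+* ℂ, ‖ι (a : E)‖ ≤ R r := fun r a =>
    (finite_X (E := E) (R r)).mem_toFinset
  refine ⟨bd n fun r => (X r).card, ?_⟩
  intro k _ φ ρ att hk
  haveI hfin : Finite (GK K ⧸ ρ.ker) := Subgroup.quotient_finite_of_isOpen _ att.isOpen
  have hlift : ∀ σ : GK K, QuotientGroup.kerLift ρ (QuotientGroup.mk σ) = ρ σ := fun σ => rfl
  refine bounded hk (QuotientGroup.kerLift ρ) (QuotientGroup.kerLift_injective ρ) ?_ _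
    (fun r => (X r).image fun a => -φ a) (fun r => Finset.card_image_le) ?_
  · intro W hW
    obtain ⟨W', h1, h2⟩ := att.ss W fun g x hx => hW (QuotientGroup.mk g) x hx
    refine ⟨W', fun q x hx => ?_, h2⟩
    obtain ⟨g, rfl⟩ := QuotientGroup.mk_surjective q
    exact h1 g x hx
  · intro r hr B hB
    have hfrob := (Pool.Agent.W401.Frob.main K).1
    choose s hs using hfrob
    set D : Set (GK K ⧸ ρ.ker) := {q | (QuotientGroup.kerLift ρ q :
      Matrix (Fin n) (Fin n) k).trace ∉ (X r).image fun a => -φ a} with hD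
    set F : Set (HeightOneSpectrum (𝓞 K)) :=
      S ∪ {v : HeightOneSpectrum (𝓞 K) | ((Ideal.absNorm v.asIdeal : ℕ) : k) = 0} with hF
    have hFf : F.Finite := hS.union (finite_char k)
    have h1 := freq ρ.ker att.isOpen s hs D (by
      intro a ha g h2
      apply ha
      have h3 : (QuotientGroup.kerLift ρ (g * a * g⁻¹) : Matrix (Fin n) (Fin n) k).trace =
          (QuotientGroup.kerLift ρ a : Matrix (Fin n) (Fin n) k).trace := by
        rw [map_mul, map_mul, map_inv, Units.val_mul, Units.val_mul, Matrix.trace_mul_comm,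
          ← mul_assoc, ← Units.val_mul, inv_mul_cancel, Units.val_one, one_mul]
      rwa [h3] at h2) (1 / (2 * r)) hFf.toFinset.card (by
      intro N T hT
      set T1 := T.filter fun v => v ∈ F with hT1
      set T2 := T.filter fun v => ¬ v ∈ F with hT2
      have h2 : T.card = T1.card + T2.card := (Finset.card_filter_add_card_filter_not _).symm
      have h3 : T1.card ≤ hFf.toFinset.card := by
        refine Finset.card_le_card fun v hv => ?_
        rw [Set.Finite.mem_toFinset]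
        exact (Finset.mem_filter.1 hv).2
      have h4 : ∀ v ∈ T2, R r ^ 2 ≤ ∑ ι : E →+* ℂ, ‖ι ((P v).coeff (n - 1) : 𝓞 E)‖ ^ 2 := by
        intro v hv
        rw [hT2, Finset.mem_filter] at hv
        have hvS : v ∉ S := fun h => hv.2 (Or.inl h)
        have hvk : ((Ideal.absNorm v.asIdeal : ℕ) : k) ≠ 0 := fun h => hv.2 (Or.inr h)
        have h5 := (hT v hv.1).2
        have h6 : (ρ (s v) : Matrix (Fin n) (Fin n) k).trace = -φ ((P v).coeff (n - 1)) := by
          haveI : Nonempty (Fin n) := ⟨⟨0, hn⟩⟩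
          rw [Matrix.trace_eq_neg_charpoly_coeff, Fintype.card_fin, att.frob v hvS hvk _ (hs v),
            Polynomial.coeff_map]
        have h7 : (P v).coeff (n - 1) ∉ X r := by
          intro h8
          apply h5
          change (ρ (s v) : Matrix (Fin n) (Fin n) k).trace ∈ _
          rw [h6]
          exact Finset.mem_image_of_mem _ h8
        rw [hX] at h7
        push Not at h7
        obtain ⟨ι, hι⟩ := h7
        refine le_trans (pow_le_pow_left₀ (hR0 r) hι.le 2) ?_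
        exact Finset.single_le_sum (f := fun ι : E →+* ℂ =>
          ‖ι ((P v).coeff (n - 1) : 𝓞 E)‖ ^ 2) (fun _ _ => by positivity) (Finset.mem_univ ι)
      have h5 : T2.card * R r ^ 2 ≤ Cs * Nat.primeCounting N := by
        calc T2.card * R r ^ 2 = ∑ v ∈ T2, R r ^ 2 := by rw [Finset.sum_const, nsmul_eq_mul]
          _ ≤ ∑ v ∈ T2, ∑ ι : E →+* ℂ, ‖ι ((P v).coeff (n - 1) : 𝓞 E)‖ ^ 2 :=
            Finset.sum_le_sum h4
          _ = ∑ ι : E →+* ℂ, ∑ v ∈ T2, ‖ι ((P v).coeff (n - 1) : 𝓞 E)‖ ^ 2 :=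
            Finset.sum_comm
          _ ≤ ∑ ι : E →+* ℂ, |C ι| * Nat.primeCounting N := by
            refine Finset.sum_le_sum fun ι _ => ?_
            refine (hC ι N T2 fun v hv => ?_).trans ?_
            · rw [hT2, Finset.mem_filter] at hv
              exact ⟨fun h => hv.2 (Or.inl h), (hT v hv.1).1⟩
            · exact mul_le_mul_of_nonneg_right (le_abs_self _) (Nat.cast_nonneg _)
          _ = _ := by rw [← Finset.sum_mul]
      have h6 : (T2.card : ℝ) * (2 * r) ≤ Nat.primeCounting N := by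
        rw [hR] at h5
        by_cases hc : Cs = 0
        · rw [hc] at h5
          have h7 : (T2.card : ℝ) = 0 := by
            have h8 : (0 : ℝ) ≤ T2.card := Nat.cast_nonneg _
            nlinarith
          rw [h7, zero_mul]
          exact Nat.cast_nonneg _
        · have hc' : 0 < Cs := lt_of_le_of_ne hCs0 (Ne.symm hc)
          have h8 : (0 : ℝ) ≤ T2.card := Nat.cast_nonneg _
          have h9 : Cs * ((T2.card : ℝ) * (2 * r)) ≤ Cs * Nat.primeCounting N := by nlinarith
          exact le_of_mul_le_mul_left h9 hc'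
      have hr' : (0 : ℝ) < 2 * r := by positivity
      rw [h2]
      push_cast
      have h7 : (T2.card : ℝ) ≤ 1 / (2 * r) * Nat.primeCounting N := by
        rw [one_div, inv_mul_eq_div, le_div_iff₀ hr']
        exact h6
      have h8 : (T1.card : ℝ) ≤ hFf.toFinset.card := by exact_mod_cast h3
      linarith)
    have h2 : (B.card : ℝ) ≤ D.ncard := by
      rw [← Set.ncard_coe_finset, Nat.cast_le]
      exact Set.ncard_le_ncard (fun q hq => hB q hq) (Set.toFinite _)
    have hr' : (0 : ℝ) < 2 * r := by positivity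
    have h3 : (2 * r * B.card : ℝ) ≤ Nat.card (GK K ⧸ ρ.ker) := by
      have h4 := h2.trans h1
      rw [one_div, inv_mul_eq_div, le_div_iff₀ hr'] at h4
      linarith
    exact_mod_cast h3

end Pool.Agent.TH119.DS
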