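import Mathlib
import Pool.Agent.TH119.DS.Gal

/-!
# From representations modulo infinitely many primes to a complex representation
-/

set_option linter.unusedSectionVars false
set_option linter.style.haveILetI false

namespace Pool.Agent.TH119.DS

open NumberField IsDedekindDomain Polynomial Filter Topology
open Pool.Agent.W401.Cheb (GK IsFrob IsInert)

/-- Unipotent elements of order invertible in the field. -/
theorem eq_one_of_charpoly {k : Type*} [Field k] {n : ℕ} (A : Matrix (Fin n) (Fin n) k) {m : ℕ}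
    (hm : (m : k) ≠ 0) (hA : A ^ m = 1) (hc : A.charpoly = (Polynomial.X - 1) ^ n) : A = 1 := by
  have h1 : (A - 1) ^ n = 0 := by
    have h2 := Matrix.aeval_self_charpoly A
    rw [hc] at h2
    simpa using h2
  have h2 : (A - 1) * ∑ i ∈ Finset.range m, A ^ i = 0 := by
    rw [mul_geom_sum, hA, sub_self]
  set Z : Matrix (Fin n) (Fin n) k := ∑ i ∈ Finset.range m, ∑ l ∈ Finset.range i, A ^ l with hZ
  have hcomm : Commute (A - 1) Z := by
    refine Commute.sum_right _ _ _ fun i _ => Commute.sum_right _ _ _ fun l _ => ?_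
    exact (Commute.sub_left (Commute.pow_right (Commute.refl A) l) (Commute.one_left _))
  have h3 : ∑ i ∈ Finset.range m, A ^ i = (A - 1) * Z + (m : Matrix (Fin n) (Fin n) k) := by
    rw [hZ, Finset.mul_sum]
    have h4 : ∀ i ∈ Finset.range m, (A - 1) * ∑ l ∈ Finset.range i, A ^ l = A ^ i - 1 :=
      fun i _ => mul_geom_sum A i
    rw [Finset.sum_congr rfl h4, Finset.sum_sub_distrib, Finset.sum_const, Finset.card_range,
      nsmul_one, sub_add_cancel]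
  have h4 : IsNilpotent ((A - 1) * Z) := hcomm.isNilpotent_mul_right ⟨n, h1⟩
  have h5 : IsUnit (m : Matrix (Fin n) (Fin n) k) := by
    have h6 := (IsUnit.mk0 (m : k) hm).map (algebraMap k (Matrix (Fin n) (Fin n) k))
    rwa [map_natCast] at h6
  have h6 : IsUnit (∑ i ∈ Finset.range m, A ^ i) := by
    rw [h3]
    exact h4.isUnit_add_right_of_commute h5 (Nat.commute_cast _ _)
  have h7 := (h6.mul_left_eq_zero).1 h2
  exact sub_eq_zero.1 h7


variable {K E : Type} [Field K] [NumberField K] [Field E] [NumberField E] {n : ℕ}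

/-- Reduction is injective on finite sets of polynomials for almost all indices. -/
theorem finite_eq {J : Type} {k : J → Type} [∀ j, Field (k j)] (φ : ∀ j, 𝓞 E →+* k j)
    (hφ : ∀ a : 𝓞 E, a ≠ 0 → {j | φ j a = 0}.Finite) {Z : Set (𝓞 E)[X]} (hZ : Z.Finite) :
    {j | ∃ z ∈ Z, ∃ z' ∈ Z, z ≠ z' ∧ z.map (φ j) = z'.map (φ j)}.Finite := by
  have h1 : {j | ∃ z ∈ Z, ∃ z' ∈ Z, z ≠ z' ∧ z.map (φ j) = z'.map (φ j)} =
      ⋃ z ∈ Z, ⋃ z' ∈ Z, {j | z ≠ z' ∧ z.map (φ j) = z'.map (φ j)} := by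
    ext j
    simp only [Set.mem_ofPred_eq, Set.mem_iUnion, exists_prop]
  rw [h1]
  refine hZ.biUnion fun z _ => hZ.biUnion fun z' _ => ?_
  by_cases hzz : z = z'
  · convert Set.finite_empty
    ext j
    simp [hzz]
  · obtain ⟨m, hm⟩ : ∃ m, (z - z').coeff m ≠ 0 := by
      by_contra hcon
      push Not at hcon
      exact hzz (sub_eq_zero.1 (Polynomial.ext fun m => by rw [hcon m, Polynomial.coeff_zero]))
    refine (hφ _ hm).subset ?_
    rintro j ⟨-, hj⟩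
    have h2 := congrArg (fun Q => Polynomial.coeff Q m) hj
    simp only [Polynomial.coeff_map] at h2
    change φ j ((z - z').coeff m) = 0
    rw [Polynomial.coeff_sub, map_sub, h2, sub_self]

theorem finite_nat {J : Type} {k : J → Type} [∀ j, Field (k j)] (φ : ∀ j, 𝓞 E →+* k j)
    (hφ : ∀ a : 𝓞 E, a ≠ 0 → {j | φ j a = 0}.Finite) (m : ℕ) (hm : m ≠ 0) :
    {j | (m : k j) = 0}.Finite := by
  refine (hφ (m : 𝓞 E) (Nat.cast_ne_zero.2 hm)).subset fun j hj => ?_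
  change φ j (m : 𝓞 E) = 0
  rw [map_natCast]
  exact hj

theorem finite_nats {J : Type} {k : J → Type} [∀ j, Field (k j)] (φ : ∀ j, 𝓞 E →+* k j)
    (hφ : ∀ a : 𝓞 E, a ≠ 0 → {j | φ j a = 0}.Finite) (A : ℕ) :
    {j | ∃ m : ℕ, 0 < m ∧ m ≤ A ∧ (m : k j) = 0}.Finite := by
  have h1 : {j | ∃ m : ℕ, 0 < m ∧ m ≤ A ∧ (m : k j) = 0} =
      ⋃ m ∈ {m : ℕ | 0 < m ∧ m ≤ A}, {j | (m : k j) = 0} := by
    ext j
    simp only [Set.mem_ofPred_eq, Set.mem_iUnion, exists_prop, and_assoc]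
  rw [h1]
  refine Set.Finite.biUnion ((Set.finite_Icc 1 A).subset fun m hm => ⟨hm.1, hm.2⟩) fun m hm => ?_
  exact finite_nat φ hφ m hm.1.ne'

/-- **The main theorem.** -/
theorem main (hn : 0 < n) (P : HeightOneSpectrum (𝓞 K) → (𝓞 E)[X])
    (S : Set (HeightOneSpectrum (𝓞 K))) (hS : S.Finite)
    (hRS : ∀ ι : E →+* ℂ, ∃ C : ℝ, ∀ (N : ℕ) (T : Finset (HeightOneSpectrum (𝓞 K))),
      (∀ v ∈ T, v ∉ S ∧ Ideal.absNorm v.asIdeal ≤ N) →
      ∑ v ∈ T, ‖ι ((P v).coeff (n - 1) : 𝓞 E)‖ ^ 2 ≤ C * Nat.primeCounting N)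
    {J : Type} [Infinite J] {k : J → Type} [∀ j, Field (k j)] (φ : ∀ j, 𝓞 E →+* k j)
    (hφ : ∀ a : 𝓞 E, a ≠ 0 → {j | φ j a = 0}.Finite)
    (ρ : ∀ j, GK K →* Matrix.GeneralLinearGroup (Fin n) (k j))
    (att : ∀ j, Att P S (k j) (φ j) (ρ j)) {Ω : Type} [Field Ω] [IsAlgClosed Ω] (ι : E →+* Ω) :
    ∃ r : GK K →* Matrix.GeneralLinearGroup (Fin n) Ω, IsOpen (r.ker : Set (GK K)) ∧
      (∀ v ∉ S, ∀ σ, IsInert v σ → r σ = 1) ∧
      ∀ v ∉ S, ∀ σ, IsFrob v σ →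
        (r σ : Matrix (Fin n) (Fin n) Ω).charpoly = (P v).map (ι.comp (algebraMap (𝓞 E) E)) := by
  classical
  obtain ⟨A, hA⟩ := order_le hn P S hS hRS
  have hfrob := (Pool.Agent.W401.Frob.main K).1
  choose s hs using hfrob
  have hNv : ∀ v : HeightOneSpectrum (𝓞 K), Ideal.absNorm v.asIdeal ≠ 0 := fun v => by
    rw [Ne, Ideal.absNorm_eq_zero_iff]
    exact v.ne_bot
  have hbadv : ∀ v : HeightOneSpectrum (𝓞 K),
      {j | ((Ideal.absNorm v.asIdeal : ℕ) : k j) = 0}.Finite := fun v =>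
    finite_nat φ hφ _ (hNv v)
  -- finitely many polynomials
  have hY : (P '' Sᶜ).Finite := by
    by_contra hinf
    obtain ⟨Z, hZ, hZc⟩ := (show (P '' Sᶜ).Infinite from hinf).exists_subset_card_eq (A + 1)
    have hch : ∀ z : Z, ∃ v, v ∉ S ∧ P v = z := by
      rintro ⟨z, hz⟩
      obtain ⟨v, hv, rfl⟩ := hZ hz
      exact ⟨v, hv, rfl⟩
    choose v hv1 hv2 using hch
    have hbad : ({j | ∃ m : ℕ, 0 < m ∧ m ≤ n ∧ (m : k j) = 0} ∪
        {j | ∃ z ∈ (Z : Set (𝓞 E)[X]), ∃ z' ∈ (Z : Set (𝓞 E)[X]), z ≠ z' ∧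
          z.map (φ j) = z'.map (φ j)} ∪
        ⋃ z : Z, {j | ((Ideal.absNorm (v z).asIdeal : ℕ) : k j) = 0}).Finite :=
      ((finite_nats φ hφ n).union (finite_eq φ hφ Z.finite_toSet)).union
        (Set.finite_iUnion fun z => hbadv (v z))
    obtain ⟨j, hj⟩ := hbad.infinite_compl.nonempty
    rw [Set.mem_compl_iff, Set.mem_union, Set.mem_union] at hj
    push Not at hj
    obtain ⟨⟨h1, h2⟩, h3⟩ := hj
    have hbound := hA (k j) (φ j) (ρ j) (att j) (by
      intro m hm hmn hm0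
      exact h1 ⟨m, hm, hmn, hm0⟩)
    haveI : Finite (GK K ⧸ (ρ j).ker) := Subgroup.quotient_finite_of_isOpen _ (att j).isOpen
    have hinj : Function.Injective
        (fun z : Z => (QuotientGroup.mk (s (v z)) : GK K ⧸ (ρ j).ker)) := by
      intro z z' hzz
      by_contra hne
      apply h2
      refine ⟨z, z.2, z', z'.2, fun h => hne (Subtype.ext h), ?_⟩
      have hp : ∀ z : Z, (QuotientGroup.kerLift (ρ j) (QuotientGroup.mk (s (v z))) :
          Matrix (Fin n) (Fin n) (k j)).charpoly = (z : (𝓞 E)[X]).map (φ j) := by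
        intro z
        change (ρ j (s (v z)) : Matrix (Fin n) (Fin n) (k j)).charpoly = _
        rw [(att j).frob (v z) (hv1 z) (fun h => h3 (Set.mem_iUnion.2 ⟨z, h⟩)) _ (hs _), hv2]
      rw [← hp z, ← hp z']
      have hzz' : (QuotientGroup.mk (s (v z)) : GK K ⧸ (ρ j).ker) =
        QuotientGroup.mk (s (v z')) := hzz
      rw [hzz']
    have h4 := Nat.card_le_card_of_injective _ hinj
    rw [Nat.card_eq_fintype_card, Fintype.card_coe, hZc] at h4
    omega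
  set Y1 : Set (𝓞 E)[X] := P '' Sᶜ ∪ {(Polynomial.X - 1) ^ n} with hY1d
  have hY1 : Y1.Finite := hY.union (Set.finite_singleton _)
  -- the good indices
  set Gd : Set J := ({j | ∃ m : ℕ, 0 < m ∧ m ≤ n ∧ (m : k j) = 0} ∪
    {j | ∃ m : ℕ, 0 < m ∧ m ≤ A ∧ (m : k j) = 0} ∪
    {j | ∃ z ∈ Y1, ∃ z' ∈ Y1, z ≠ z' ∧ z.map (φ j) = z'.map (φ j)})ᶜ with hGd
  have hGdc : Gdᶜ.Finite := by
    rw [hGd, compl_compl]
    exact ((finite_nats φ hφ n).union (finite_nats φ hφ A)).union (finite_eq φ hφ hY1)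
  have hg1 : ∀ j ∈ Gd, ∀ m : ℕ, 0 < m → m ≤ n → (m : k j) ≠ 0 := by
    intro j hj m hm hmn hm0
    exact hj (Or.inl (Or.inl ⟨m, hm, hmn, hm0⟩))
  have hg2 : ∀ j ∈ Gd, ∀ m : ℕ, 0 < m → m ≤ A → (m : k j) ≠ 0 := by
    intro j hj m hm hmn hm0
    exact hj (Or.inl (Or.inr ⟨m, hm, hmn, hm0⟩))
  have hg3 : ∀ j ∈ Gd, ∀ z ∈ Y1, ∀ z' ∈ Y1, z.map (φ j) = z'.map (φ j) → z = z' := by
    intro j hj z hz z' hz' h
    by_contra hne
    exact hj (Or.inr ⟨z, hz, z', hz', hne, h⟩)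
  have hpick : ∀ F : Set J, F.Finite → ∃ j ∈ Gd, j ∉ F := by
    intro F hF
    obtain ⟨j, hj⟩ := (hGdc.union hF).infinite_compl.nonempty
    rw [Set.mem_compl_iff, Set.mem_union] at hj
    push Not at hj
    exact ⟨j, not_not.1 hj.1, hj.2⟩
  have hPY : ∀ v ∉ S, P v ∈ Y1 := fun v hv => Or.inl ⟨v, hv, rfl⟩
  -- elements with trivial characteristic polynomial
  have huni : ∀ j ∈ Gd, ∀ σ : GK K, (ρ j σ : Matrix (Fin n) (Fin n) (k j)).charpoly =
      (Polynomial.X - 1) ^ n → ρ j σ = 1 := by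
    intro j hj σ hσ
    haveI : Finite (GK K ⧸ (ρ j).ker) := Subgroup.quotient_finite_of_isOpen _ (att j).isOpen
    apply Units.ext
    rw [Units.val_one]
    refine eq_one_of_charpoly _ (m := Nat.card (GK K ⧸ (ρ j).ker))
      (hg2 j hj _ Nat.card_pos (hA _ _ _ (att j) (hg1 j hj))) ?_ hσ
    have h1 : (QuotientGroup.mk σ : GK K ⧸ (ρ j).ker) ^ Nat.card (GK K ⧸ (ρ j).ker) = 1 :=
      pow_card_eq_one'
    rw [← Units.val_pow_eq_pow_val, ← map_pow]
    have h2 : σ ^ Nat.card (GK K ⧸ (ρ j).ker) ∈ (ρ j).ker := by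
      rw [← QuotientGroup.eq_one_iff]
      exact h1
    rw [MonoidHom.mem_ker] at h2
    rw [h2, Units.val_one]
  have hF : ∀ j, (S ∪ {v : HeightOneSpectrum (𝓞 K) |
      ((Ideal.absNorm v.asIdeal : ℕ) : k j) = 0}).Finite := fun j => hS.union (finite_char _)
  -- the kernels agree
  have hker : ∀ i ∈ Gd, ∀ j ∈ Gd, (ρ i).ker ≤ (ρ j).ker := by
    intro i hi j hj σ hσ
    obtain ⟨v, hv, τ, hτ, hτσ⟩ := exists_frob_mem ((ρ i).ker ⊓ (ρ j).ker)
      ((att i).isOpen.inter (att j).isOpen) _ ((hF i).union (hF j)) σ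
    rw [Set.mem_union, Set.mem_union, Set.mem_union] at hv
    push Not at hv
    obtain ⟨⟨hvS, hvi⟩, -, hvj⟩ := hv
    have h1 := QuotientGroup.eq.1 hτσ
    have h2 : ρ i τ = ρ i σ := by
      have h3 : ρ i (τ⁻¹ * σ) = 1 := h1.1
      rw [map_mul, map_inv, inv_mul_eq_one] at h3
      exact h3
    have h3 : ρ j τ = ρ j σ := by
      have h3 : ρ j (τ⁻¹ * σ) = 1 := h1.2
      rw [map_mul, map_inv, inv_mul_eq_one] at h3
      exact h3
    have h4 := (att i).frob v hvS hvi τ hτ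
    rw [h2, MonoidHom.mem_ker.1 hσ, Units.val_one, Matrix.charpoly_one, Fintype.card_fin] at h4
    have h5 : P v = (Polynomial.X - 1) ^ n := by
      refine hg3 i hi _ (hPY v hvS) _ (Or.inr rfl) ?_
      rw [← h4, Polynomial.map_pow, Polynomial.map_sub, Polynomial.map_X, Polynomial.map_one]
    rw [MonoidHom.mem_ker, ← h3]
    refine huni j hj τ ?_
    rw [(att j).frob v hvS hvj τ hτ, h5, Polynomial.map_pow, Polynomial.map_sub,
      Polynomial.map_X, Polynomial.map_one]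
  obtain ⟨j0, hj0, -⟩ := hpick ∅ Set.finite_empty
  set U := (ρ j0).ker with hU
  have hUo : IsOpen (U : Set (GK K)) := (att j0).isOpen
  haveI : Finite (GK K ⧸ U) := Subgroup.quotient_finite_of_isOpen _ hUo
  have hUk : ∀ j ∈ Gd, U ≤ (ρ j).ker := fun j hj => hker j0 hj0 j hj
  -- the polynomials of the elements of the quotient
  have hex : ∀ q : GK K ⧸ U, ∃ v, v ∉ S ∧ ∃ τ, IsFrob v τ ∧
      (QuotientGroup.mk τ : GK K ⧸ U) = q ∧ ((Ideal.absNorm v.asIdeal : ℕ) : k j0) ≠ 0 := by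
    intro q
    obtain ⟨σ, rfl⟩ := QuotientGroup.mk_surjective q
    obtain ⟨v, hv, τ, hτ, hτσ⟩ := exists_frob_mem U hUo _ (hF j0) σ
    rw [Set.mem_union] at hv
    push Not at hv
    exact ⟨v, hv.1, τ, hτ, hτσ, hv.2⟩
  choose w hwS t ht htq hwk using hex
  have hkey : ∀ j ∈ Gd, ∀ σ : GK K, (ρ j σ : Matrix (Fin n) (Fin n) (k j)).charpoly =
      (P (w (QuotientGroup.mk σ))).map (φ j) := by
    intro j hj σ
    obtain ⟨v, hv, τ, hτ, hτσ⟩ := exists_frob_mem U hUo _ ((hF j0).union (hF j)) σ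
    rw [Set.mem_union, Set.mem_union, Set.mem_union] at hv
    push Not at hv
    obtain ⟨⟨hvS, hvi⟩, -, hvj⟩ := hv
    have heq : ∀ i ∈ Gd, ∀ a b : GK K, (QuotientGroup.mk a : GK K ⧸ U) = QuotientGroup.mk b →
        ρ i a = ρ i b := by
      intro i hi a b hab
      have h1 := hUk i hi (QuotientGroup.eq.1 hab)
      rw [MonoidHom.mem_ker, map_mul, map_inv, inv_mul_eq_one] at h1
      exact h1
    have h1 : P v = P (w (QuotientGroup.mk σ)) := by
      refine hg3 j0 hj0 _ (hPY v hvS) _ (hPY _ (hwS _)) ?_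
      rw [← (att j0).frob v hvS hvi τ hτ,
        ← (att j0).frob _ (hwS (QuotientGroup.mk σ)) (hwk _) _ (ht _)]
      rw [heq j0 hj0 τ (t (QuotientGroup.mk σ)) (by rw [hτσ, htq])]
    rw [← h1, ← (att j).frob v hvS hvj τ hτ, heq j hj τ σ hτσ]
  -- the complex representation
  obtain ⟨r, hr⟩ := exists_rep (Q := GK K ⧸ U) (n := n) ι (fun q => P (w q)) (J := Gd)
    (fun j => k j) (fun j => φ j) (by
      intro a ha
      obtain ⟨j, hj, hja⟩ := hpick _ (hφ a ha)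
      exact ⟨⟨j, hj⟩, hja⟩)
    (fun j => QuotientGroup.lift U (ρ j) fun x hx => hUk j j.2 hx) (by
      intro j q
      obtain ⟨σ, rfl⟩ := QuotientGroup.mk_surjective q
      exact hkey j j.2 σ)
  refine ⟨r.comp (QuotientGroup.mk' U), ?_, ?_, ?_⟩
  · refine Subgroup.isOpen_mono ?_ hUo
    intro x hx
    rw [MonoidHom.mem_ker, MonoidHom.comp_apply]
    have h1 : QuotientGroup.mk' U x = 1 := (QuotientGroup.eq_one_iff x).2 hx
    rw [h1, map_one]
  · intro v hv σ hσ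
    obtain ⟨j, hj, hjv⟩ := hpick _ (hbadv v)
    have h1 : σ ∈ (ρ j).ker := (att j).unr v hv hjv σ hσ
    have h2 : σ ∈ U := hker j hj j0 hj0 h1
    rw [MonoidHom.comp_apply]
    have h3 : QuotientGroup.mk' U σ = 1 := (QuotientGroup.eq_one_iff σ).2 h2
    rw [h3, map_one]
  · intro v hv σ hσ
    obtain ⟨j, hj, hjv⟩ := hpick _ (hbadv v)
    have h1 := (att j).frob v hv hjv σ hσ
    rw [hkey j hj σ] at h1
    have h2 := hg3 j hj _ (hPY _ (hwS _)) _ (hPY v hv) h1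
    rw [MonoidHom.comp_apply]
    change (r (QuotientGroup.mk σ) : Matrix (Fin n) (Fin n) Ω).charpoly = _
    rw [hr, h2]

end Pool.Agent.TH119.DS
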